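import Mathlib
import Pool.Agent.Lib.MP731498.Inst0b

set_option autoImplicit false

namespace Pool.Agent.Results.MP_731498_gt.NotLengthMetricAll

open Pool.Agent.Lib.MP731498
open scoped ENNReal

/-- For every surface `S` of genus `g` with `n` punctures, `3g - 3 + n > 0`, the length spectrum
metric `dL` on the Teichmüller space of `S` is not a length metric, so it is not Finsler.
For all `η > 0` and all `R` there are points `X`, `Y` at finite distance at least `R` such that
every point `Z` satisfies `max (dL X Z) (dL Z Y) ≥ (1 - η) dL X Y` (no approximate midpoints), and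
every path from `X` to `Y` contains a point `Z` with `dL X Z + dL Z Y ≥ (2 - η) dL X Y` (the paths
start at the holonomy `X` and end at some holonomy of the point `Y`, which has the same traces as
`Y` up to sign). -/
theorem result (g n : ℕ) (hgn : 3 < 3 * g + n) (η : ℝ) (hη : 0 < η) (R : ℝ) :
    ∃ X ∈ Teich g n, ∃ Y ∈ Teich g n, ENNReal.ofReal R ≤ dL X Y ∧ dL X Y < ⊤ ∧ JoinedBy X Y ∧
      (∀ Z, JoinedBy X Z → ENNReal.ofReal (1 - η) * dL X Y ≤ max (dL X Z) (dL Z Y)) ∧
      (∀ c : unitInterval → (SurfaceGroup g n →* SL2), IsPath c → c 0 = X →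
        (∀ w, |tr (c 1 w)| = |tr (Y w)|) →
        ∃ s, ENNReal.ofReal (2 - η) * dL X Y ≤ dL X (c s) + dL (c s) Y) := by
  rcases Nat.eq_zero_or_pos g with h | h
  · subst h
    exact main_zero (by omega) η hη R
  · exact main_pos h hgn η hη R

end Pool.Agent.Results.MP_731498_gt.NotLengthMetricAll
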